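import Mathlib

/-!
# Finitely generated commutative rings have d-Sigma_2 Scott sentences

We define the infinitary logic `L_{omega_1 omega}` over a first-order language, the hierarchy
of formulas `Sigma_alpha`, `Pi_alpha`, d-`Sigma_alpha`, and Scott sentences, and we prove that
every finitely generated commutative ring (in particular every finitely generated integral
domain) has a d-`Sigma_2` Scott sentence in the language `(0, 1, +, -, *)`.
-/

namespace Pool.Agent.Results.MP_93e0ce_lc.CommRingScott

open FirstOrder FirstOrder.Language FirstOrder.Language.Substructure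

universe u v w z z'

/-- Formulas of the infinitary logic `L_{omega_1 omega}` over the first-order language `L`, with
free variables indexed by `Fin n`: finitary formulas, negations, binary conjunctions, countable
conjunctions and disjunctions, and finite blocks of `k` existential or universal quantifiers,
which bind the last `k` of the `n + k` variables. -/
inductive InfFormula (L : FirstOrder.Language.{u, v}) : ℕ → Type (max u v)
  | fin {n : ℕ} (φ : L.Formula (Fin n)) : InfFormula L n
  | not {n : ℕ} (φ : InfFormula L n) : InfFormula L n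
  | and {n : ℕ} (φ ψ : InfFormula L n) : InfFormula L n
  | iAnd {n : ℕ} (φ : ℕ → InfFormula L n) : InfFormula L n
  | iOr {n : ℕ} (φ : ℕ → InfFormula L n) : InfFormula L n
  | exs {n : ℕ} (k : ℕ) (φ : InfFormula L (n + k)) : InfFormula L n
  | alls {n : ℕ} (k : ℕ) (φ : InfFormula L (n + k)) : InfFormula L n

/-- The satisfaction relation for formulas of `L_{omega_1 omega}`, by recursion on the formula
(the equations are spelled out in `realize_fin`, ..., `realize_alls` below). -/
def InfFormula.Realize {L : FirstOrder.Language.{u, v}} {M : Type w} [L.Structure M] {n : ℕ}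
    (φ : InfFormula L n) : (Fin n → M) → Prop :=
  InfFormula.rec (motive := fun n _ => (Fin n → M) → Prop)
    (fun φ x => φ.Realize x)
    (fun _ r x => ¬ r x)
    (fun _ _ r₁ r₂ x => r₁ x ∧ r₂ x)
    (fun _ r x => ∀ i, r i x)
    (fun _ r x => ∃ i, r i x)
    (fun k _ r x => ∃ y : Fin k → M, r (Fin.append x y))
    (fun k _ r x => ∀ y : Fin k → M, r (Fin.append x y)) φ

section Realize

variable {L : FirstOrder.Language.{u, v}} {M : Type w} [L.Structure M] {n : ℕ}

theorem realize_fin (φ : L.Formula (Fin n)) (x : Fin n → M) :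
    (InfFormula.fin φ).Realize x ↔ φ.Realize x := Iff.rfl

theorem realize_not (φ : InfFormula L n) (x : Fin n → M) :
    (InfFormula.not φ).Realize x ↔ ¬ φ.Realize x := Iff.rfl

theorem realize_and (φ ψ : InfFormula L n) (x : Fin n → M) :
    (InfFormula.and φ ψ).Realize x ↔ φ.Realize x ∧ ψ.Realize x := Iff.rfl

theorem realize_iAnd (φ : ℕ → InfFormula L n) (x : Fin n → M) :
    (InfFormula.iAnd φ).Realize x ↔ ∀ i, (φ i).Realize x := Iff.rfl

theorem realize_iOr (φ : ℕ → InfFormula L n) (x : Fin n → M) :
    (InfFormula.iOr φ).Realize x ↔ ∃ i, (φ i).Realize x := Iff.rfl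

theorem realize_exs (k : ℕ) (φ : InfFormula L (n + k)) (x : Fin n → M) :
    (InfFormula.exs k φ).Realize x ↔ ∃ y : Fin k → M, φ.Realize (Fin.append x y) := Iff.rfl

theorem realize_alls (k : ℕ) (φ : InfFormula L (n + k)) (x : Fin n → M) :
    (InfFormula.alls k φ).Realize x ↔ ∀ y : Fin k → M, φ.Realize (Fin.append x y) := Iff.rfl

end Realize

/-- The two sides of the hierarchy of infinitary formulas. -/
inductive Side
  | sigma
  | pi

/-- `InClass .sigma α φ` says that `φ` is a `Sigma_α` formula and `InClass .pi α φ` says that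
`φ` is a `Pi_α` formula. Finitary quantifier-free formulas are `Sigma_0` and `Pi_0`; a `Sigma_α`
formula is a countable disjunction of formulas `∃ y₁ … y_k, φ` with each `φ` in `Pi_β` for some
`β < α`; a `Pi_α` formula is a countable conjunction of formulas `∀ y₁ … y_k, φ` with each `φ` in
`Sigma_β` for some `β < α`. -/
inductive InClass {L : FirstOrder.Language.{u, v}} : Side → Ordinal.{0} → {n : ℕ} → InfFormula L n → Prop
  | qf (s : Side) {n : ℕ} {φ : L.Formula (Fin n)} (h : BoundedFormula.IsQF φ) :
      InClass s 0 (InfFormula.fin φ)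
  | iOr {α : Ordinal.{0}} {n : ℕ} (β : ℕ → Ordinal.{0}) (k : ℕ → ℕ)
      (φ : (i : ℕ) → InfFormula L (n + k i)) (hβ : ∀ i, β i < α)
      (h : ∀ i, InClass Side.pi (β i) (φ i)) :
      InClass Side.sigma α (InfFormula.iOr fun i => InfFormula.exs (k i) (φ i))
  | iAnd {α : Ordinal.{0}} {n : ℕ} (β : ℕ → Ordinal.{0}) (k : ℕ → ℕ)
      (φ : (i : ℕ) → InfFormula L (n + k i)) (hβ : ∀ i, β i < α)
      (h : ∀ i, InClass Side.sigma (β i) (φ i)) :
      InClass Side.pi α (InfFormula.iAnd fun i => InfFormula.alls (k i) (φ i))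

/-- `φ` is a `Sigma_α` formula. -/
def IsSigma {L : FirstOrder.Language.{u, v}} (α : Ordinal.{0}) {n : ℕ} (φ : InfFormula L n) : Prop :=
  InClass Side.sigma α φ

/-- `φ` is a `Pi_α` formula. -/
def IsPi {L : FirstOrder.Language.{u, v}} (α : Ordinal.{0}) {n : ℕ} (φ : InfFormula L n) : Prop :=
  InClass Side.pi α φ

/-- `φ` is a d-`Sigma_α` formula: the conjunction of a `Sigma_α` formula and a `Pi_α` formula. -/
def IsDSigma {L : FirstOrder.Language.{u, v}} (α : Ordinal.{0}) {n : ℕ} (φ : InfFormula L n) : Prop :=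
  ∃ σ π : InfFormula L n, IsSigma α σ ∧ IsPi α π ∧ φ = InfFormula.and σ π

/-- `φ` is a Scott sentence of the structure `A`: the countable models of the sentence `φ` are
exactly the structures isomorphic to `A`. -/
def IsScottSentence {L : FirstOrder.Language.{u, v}} (φ : InfFormula L 0) (A : Type w) [L.Structure A] :
    Prop :=
  ∀ (M : Type z) [L.Structure M] [Countable M],
    φ.Realize (Fin.elim0 : Fin 0 → M) ↔ Nonempty (M ≃[L] A)

/-! ### Auxiliary results -/

section Aux

variable {L : FirstOrder.Language.{u, v}}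

/-- `b` satisfies every universal formula that `a` satisfies. -/
def Transfer {M : Type w} {N : Type z} [L.Structure M] [L.Structure N] {n : ℕ}
    (a : Fin n → M) (b : Fin n → N) : Prop :=
  ∀ (k : ℕ) (ψ : L.Formula (Fin (n + k))), BoundedFormula.IsQF ψ →
    (∀ y : Fin k → M, ψ.Realize (Fin.append a y)) → ∀ y : Fin k → N, ψ.Realize (Fin.append b y)

theorem Transfer.qf {M : Type w} {N : Type z} [L.Structure M] [L.Structure N] {n : ℕ}
    {a : Fin n → M} {b : Fin n → N} (h : Transfer (L := L) a b) (ψ : L.Formula (Fin n))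
    (hψ : BoundedFormula.IsQF ψ) : ψ.Realize a ↔ ψ.Realize b := by
  have h1 : ∀ ψ : L.Formula (Fin n), BoundedFormula.IsQF ψ → ψ.Realize a → ψ.Realize b := by
    intro ψ hψ ha
    have h2 := h 0 ψ hψ (fun y => by
      have : Fin.append a y = a := by
        rw [Fin.append_right_nil _ _ rfl]
        rfl
      rw [this]
      exact ha) Fin.elim0
    have : Fin.append b Fin.elim0 = b := by
      rw [Fin.append_right_nil _ _ rfl]
      rfl
    rwa [this] at h2
  refine ⟨h1 ψ hψ, fun hb => ?_⟩
  by_contra hna
  have := h1 ψ.not hψ.not (by simpa using hna)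
  simp at this
  exact this hb

theorem Transfer.refl {M : Type w} [L.Structure M] {n : ℕ} (a : Fin n → M) :
    Transfer (L := L) a a :=
  fun _ _ _ h y => h y

theorem Transfer.comp_equiv {M : Type w} {N : Type z} {P : Type z'} [L.Structure M]
    [L.Structure N] [L.Structure P] (e : N ≃[L] P) {n : ℕ} {a : Fin n → M} {b : Fin n → N}
    (h : Transfer (L := L) a b) : Transfer (L := L) a (e ∘ b) := by
  intro k ψ hψ ha y
  have h1 := h k ψ hψ ha (e.symm ∘ y)
  rw [← StrongHomClass.realize_formula e] at h1
  have h2 : e ∘ Fin.append b (e.symm ∘ y) = Fin.append (e ∘ b) y := by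
    funext i
    refine Fin.addCases (fun i => ?_) (fun i => ?_) i <;> simp
  rwa [h2] at h1

/-- If `a` generates `A`, `b` generates `M`, and `b` satisfies the universal formulas satisfied
by `a`, then `M` and `A` are isomorphic. -/
theorem nonempty_equiv_of_transfer {A : Type w} {M : Type z} [L.Structure A] [L.Structure M]
    {n : ℕ} {a : Fin n → A} {b : Fin n → M} (ha : ∀ x : A, ∃ t : L.Term (Fin n), t.realize a = x)
    (hb : ∀ x : M, ∃ t : L.Term (Fin n), t.realize b = x) (h : Transfer (L := L) a b) :
    Nonempty (M ≃[L] A) := by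
  choose T hT using ha
  choose S hS using hb
  have hterm : ∀ t t' : L.Term (Fin n), t.realize a = t'.realize a ↔ t.realize b = t'.realize b := by
    intro t t'
    have := h.qf (t.equal t') (BoundedFormula.IsAtomic.equal _ _).isQF
    simpa using this
  have hrel : ∀ {m : ℕ} (R : L.Relations m) (t : Fin m → L.Term (Fin n)),
      Structure.RelMap R (fun i => (t i).realize a) ↔
        Structure.RelMap R (fun i => (t i).realize b) := by
    intro m R t
    have := h.qf (R.formula t) (BoundedFormula.IsAtomic.rel _ _).isQF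
    simpa using this
  have hTb : ∀ t : L.Term (Fin n), (T (t.realize a)).realize b = t.realize b := by
    intro t
    rw [← hterm, hT]
  have hSa : ∀ t : L.Term (Fin n), (S (t.realize b)).realize a = t.realize a := by
    intro t
    rw [hterm, hS]
  refine ⟨(⟨⟨fun x => (T x).realize b, fun y => (S y).realize a, ?_, ?_⟩, ?_, ?_⟩ :
    A ≃[L] M).symm⟩
  · intro x
    simp only
    rw [hSa, hT]
  · intro y
    simp only
    rw [hTb, hS]
  · intro m f x
    simp only
    have h1 : (Term.func f fun i => T (x i)).realize a = Structure.funMap f x := by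
      simp only [Term.realize, hT]
    rw [← h1, hTb]
    rfl
  · intro m R x
    simp only
    have h1 := hrel R (fun i => T (x i))
    simp only [hT] at h1
    exact h1.symm

/-- The main construction of the Scott sentence. -/
theorem exists_scottSentence [Countable L.Symbols] {A : Type w} [L.Structure A] {n : ℕ}
    (a : Fin (0 + n) → A) (ha : ∀ x : A, ∃ t : L.Term (Fin (0 + n)), t.realize a = x)
    (hstar : ∀ b : Fin (0 + n) → A, Transfer (L := L) a b →
      ∀ x : A, ∃ t : L.Term (Fin (0 + n)), t.realize b = x) :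
    ∃ φ : InfFormula L 0, IsDSigma 2 φ ∧ IsScottSentence.{u, v, w, z} φ A := by
  classical
  -- the universal formulas satisfied by `a`
  let I := {p : Σ k : ℕ, L.Formula (Fin ((0 + n) + k)) //
    BoundedFormula.IsQF p.2 ∧ ∀ y : Fin p.1 → A, p.2.Realize (Fin.append a y)}
  have : Nonempty I := ⟨⟨⟨0, ⊤⟩, BoundedFormula.IsQF.top, fun y => by simp⟩⟩
  obtain ⟨e, he⟩ := exists_surjective_nat I
  let φ : InfFormula L (0 + n) := .iAnd fun i => .alls (e i).1.1 (.fin (e i).1.2)
  have hφ : InClass Side.pi 1 φ := by
    refine InClass.iAnd (fun _ => 0) _ _ (fun _ => zero_lt_one) (fun i => ?_)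
    exact InClass.qf _ (e i).2.1
  have hφr : ∀ {M : Type z} [L.Structure M] (b : Fin (0 + n) → M),
      φ.Realize b ↔ Transfer (L := L) a b := by
    intro M _ b
    constructor
    · intro h k ψ hψ hψa y
      obtain ⟨i, hi⟩ := he ⟨⟨k, ψ⟩, hψ, hψa⟩
      have h1 : ∀ y : Fin (e i).1.1 → M, (e i).1.2.Realize (Fin.append b y) := h i
      have h2 : (e i).1 = ⟨k, ψ⟩ := by rw [hi]
      rw [h2] at h1
      exact h1 y
    · intro h i y
      exact h _ _ (e i).2.1 (e i).2.2 y
  -- the disjuncts of the second part
  let d₁ : I → Σ k : ℕ, L.Formula (Fin ((0 + n) + 1 + k)) := fun p =>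
    ⟨p.1.1, (p.1.2.not).relabel
      (Fin.append (Fin.castAdd p.1.1 ∘ Fin.castSucc) (Fin.natAdd ((0 + n) + 1)))⟩
  let d₂ : L.Term (Fin (0 + n)) → Σ k : ℕ, L.Formula (Fin ((0 + n) + 1 + k)) := fun t =>
    ⟨0, (t.relabel Fin.castSucc).equal (Term.var (Fin.last (0 + n)))⟩
  have hd₁ : ∀ {M : Type z} [L.Structure M] (p : I) (x : Fin ((0 + n) + 1) → M)
      (y : Fin p.1.1 → M), (d₁ p).2.Realize (Fin.append x y : Fin ((0 + n) + 1 + p.1.1) → M) ↔
        ¬ p.1.2.Realize (Fin.append (x ∘ Fin.castSucc) y) := by
    intro M _ p x y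
    have h1 : (Fin.append x y) ∘
        (Fin.append (Fin.castAdd p.1.1 ∘ Fin.castSucc) (Fin.natAdd ((0 + n) + 1))) =
        Fin.append (x ∘ Fin.castSucc) y := by
      funext i
      refine Fin.addCases (fun i => ?_) (fun i => ?_) i <;> simp
    rw [← h1]
    exact (Formula.realize_relabel (φ := p.1.2.not)).trans Formula.realize_not
  have hd₂ : ∀ {M : Type z} [L.Structure M] (t : L.Term (Fin (0 + n)))
      (x : Fin ((0 + n) + 1) → M) (y : Fin 0 → M),
        (d₂ t).2.Realize (Fin.append x y : Fin ((0 + n) + 1 + 0) → M) ↔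
        t.realize (x ∘ Fin.castSucc) = x (Fin.last _) := by
    intro M _ t x y
    have h1 : Fin.append x y = x := by
      rw [Fin.append_right_nil _ _ rfl]
      rfl
    rw [h1]
    refine Formula.realize_equal.trans ?_
    rw [Term.realize_relabel]
    rfl
  obtain ⟨g, hg⟩ := ((Set.countable_range d₁).union (Set.countable_range d₂)).exists_eq_range
    ((Set.range_nonempty d₁).inl)
  have hgqf : ∀ i, BoundedFormula.IsQF (g i).2 := by
    intro i
    have : g i ∈ Set.range d₁ ∪ Set.range d₂ := by
      rw [hg]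
      exact Set.mem_range_self i
    rcases this with ⟨p, hp⟩ | ⟨t, ht⟩
    · rw [← hp]
      exact BoundedFormula.IsQF.relabel (p.2.1.not) _
    · rw [← ht]
      exact (BoundedFormula.IsAtomic.equal _ _).isQF
  let χ : InfFormula L (0 + (n + 1)) := .iOr fun i => .exs (g i).1 (.fin (g i).2)
  have hχ : InClass Side.sigma 1 χ := by
    refine InClass.iOr (fun _ => 0) _ _ (fun _ => zero_lt_one) (fun i => ?_)
    exact InClass.qf _ (hgqf _)
  have hχr : ∀ {M : Type z} [L.Structure M] (x : Fin ((0 + n) + 1) → M),
      χ.Realize x ↔ (¬ Transfer (L := L) a (x ∘ Fin.castSucc) ∨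
        ∃ t : L.Term (Fin (0 + n)), t.realize (x ∘ Fin.castSucc) = x (Fin.last _)) := by
    intro M _ x
    constructor
    · rintro ⟨i, y, hy⟩
      have h1 : g i ∈ Set.range d₁ ∪ Set.range d₂ := by
        rw [hg]
        exact Set.mem_range_self i
      have h2 : ∃ y : Fin (g i).1 → M, (g i).2.Realize (Fin.append x y) := ⟨y, hy⟩
      rcases h1 with ⟨p, hp⟩ | ⟨t, ht⟩
      · left
        intro htr
        rw [← hp] at h2
        obtain ⟨y, hy⟩ := h2
        exact (hd₁ p x y).1 hy (htr _ _ p.2.1 p.2.2 y)
      · right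
        rw [← ht] at h2
        obtain ⟨y, hy⟩ := h2
        exact ⟨t, (hd₂ t x y).1 hy⟩
    · intro h
      suffices h2 : ∃ q ∈ Set.range d₁ ∪ Set.range d₂,
          ∃ y : Fin q.1 → M, q.2.Realize (Fin.append x y) by
        obtain ⟨q, hq, y, hy⟩ := h2
        rw [hg] at hq
        obtain ⟨i, rfl⟩ := hq
        exact ⟨i, y, hy⟩
      rcases h with h | ⟨t, ht⟩
      · unfold Transfer at h
        push Not at h
        obtain ⟨k, ψ, hψ, hψa, y, hy⟩ := h
        exact ⟨d₁ ⟨⟨k, ψ⟩, hψ, hψa⟩, Or.inl ⟨_, rfl⟩, y, (hd₁ ⟨⟨k, ψ⟩, hψ, hψa⟩ x y).2 hy⟩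
      · exact ⟨d₂ t, Or.inr ⟨_, rfl⟩, Fin.elim0, (hd₂ t x _).2 ht⟩
  refine ⟨.and (.iOr fun _ => .exs n φ) (.iAnd fun _ => .alls (n + 1) χ),
    ⟨_, _, ?_, ?_, rfl⟩, ?_⟩
  · exact InClass.iOr (fun _ => 1) (fun _ => n) (fun _ => φ) (fun _ => one_lt_two) (fun _ => hφ)
  · exact InClass.iAnd (fun _ => 1) (fun _ => n + 1) (fun _ => χ) (fun _ => one_lt_two)
      (fun _ => hχ)
  intro M _ _
  constructor
  · rintro ⟨⟨_, b, hb⟩, hπ⟩
    have htr := (hφr _).1 hb
    refine nonempty_equiv_of_transfer ha ?_ htr
    intro m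
    have h1 := (hχr _).1 (hπ 0 (Fin.snoc b m))
    have h3 : ∀ i : Fin (0 + n), (Fin.append (Fin.elim0 : Fin 0 → M)
        (Fin.snoc b m : Fin (n + 1) → M)) (Fin.castSucc i) =
          Fin.append (Fin.elim0 : Fin 0 → M) b i := by
      intro i
      refine Fin.addCases (fun i => i.elim0) (fun i => ?_) i
      have h5 : Fin.castSucc (Fin.natAdd 0 i) = Fin.natAdd 0 (Fin.castSucc i) := rfl
      rw [h5, Fin.append_right, Fin.append_right, Fin.snoc_castSucc]
    have h3' : (Fin.append (Fin.elim0 : Fin 0 → M) (Fin.snoc b m : Fin (n + 1) → M)) ∘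
        Fin.castSucc = Fin.append (Fin.elim0 : Fin 0 → M) b := funext h3
    have h4 : (Fin.append (Fin.elim0 : Fin 0 → M) (Fin.snoc b m : Fin (n + 1) → M))
        (Fin.last (0 + n)) = m := by
      have h5 : Fin.last (0 + n) = Fin.natAdd 0 (Fin.last n) := rfl
      rw [h5, Fin.append_right, Fin.snoc_last]
    rw [h3', h4] at h1
    rcases h1 with h1 | h1
    · exact absurd htr h1
    · exact h1
  · rintro ⟨f⟩
    constructor
    · refine ⟨0, fun i => f.symm (a (Fin.natAdd 0 i)), (hφr _).2 ?_⟩
      have h1 : Fin.append (Fin.elim0 : Fin 0 → M) (fun i => f.symm (a (Fin.natAdd 0 i))) =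
          f.symm ∘ a := by
        funext i
        refine Fin.addCases (fun i => i.elim0) (fun i => ?_) i
        simp
      rw [h1]
      exact (Transfer.refl a).comp_equiv f.symm
    · intro _ y
      refine (hχr _).2 ?_
      by_cases htr : Transfer (L := L) a
          ((Fin.append (Fin.elim0 : Fin 0 → M) y : Fin (0 + (n + 1)) → M) ∘ Fin.castSucc)
      · right
        obtain ⟨t, ht⟩ := hstar _ (htr.comp_equiv f)
          (f ((Fin.append (Fin.elim0 : Fin 0 → M) y : Fin (0 + (n + 1)) → M) (Fin.last (0 + n))))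
        refine ⟨t, f.injective ?_⟩
        rw [← ht, HomClass.realize_term]
      · exact Or.inl htr

end Aux

section Ring

/-- A surjective endomorphism of a Noetherian ring is injective. -/
theorem injective_of_surjective_of_noetherian {A : Type w} [CommRing A] [IsNoetherianRing A]
    (f : A →+* A) (hf : Function.Surjective f) : Function.Injective f := by
  have hsurj : ∀ n : ℕ, Function.Surjective (f ^ n) := by
    intro n
    induction n with
    | zero => exact fun x => ⟨x, rfl⟩
    | succ n ih =>
      intro x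
      obtain ⟨y, hy⟩ := hf x
      obtain ⟨z, hz⟩ := ih y
      exact ⟨z, by rw [pow_succ', RingHom.mul_def, RingHom.comp_apply, hz, hy]⟩
  have hmono : Monotone fun n : ℕ => RingHom.ker (f ^ n) := by
    refine monotone_nat_of_le_succ fun n x hx => ?_
    rw [RingHom.mem_ker] at hx ⊢
    rw [pow_succ', RingHom.mul_def, RingHom.comp_apply, hx, map_zero]
  obtain ⟨n, hn⟩ := monotone_stabilizes_iff_noetherian.2 (inferInstance : IsNoetherianRing A)
    ⟨_, hmono⟩
  rw [injective_iff_map_eq_zero]
  intro x hx
  obtain ⟨y, rfl⟩ := hsurj n x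
  have h1 : y ∈ RingHom.ker (f ^ (n + 1)) := by
    rw [RingHom.mem_ker, pow_succ', RingHom.mul_def, RingHom.comp_apply, hx]
  have h2 := hn (n + 1) (Nat.le_succ n)
  simp only [OrderHom.coe_mk] at h2
  rw [← h2, RingHom.mem_ker] at h1
  exact h1

variable {A : Type w} [CommRing A] [Ring.CompatibleRing A]

theorem exists_freeCommRing_lift_eq {n : ℕ} (a : Fin n → A) (t : Language.ring.Term (Fin n)) :
    ∃ p : FreeCommRing (Fin n), FreeCommRing.lift a p = t.realize a := by
  induction t with
  | var i => exact ⟨FreeCommRing.of i, by simp⟩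
  | @func l f ts ih =>
    choose p hp using ih
    rw [Term.realize]
    simp only [← hp]
    cases f with
    | add =>
      exact ⟨p 0 + p 1, (map_add _ _ _).trans (Ring.CompatibleRing.funMap_add (R := A)
        fun i => FreeCommRing.lift a (p i)).symm⟩
    | mul =>
      exact ⟨p 0 * p 1, (map_mul _ _ _).trans (Ring.CompatibleRing.funMap_mul (R := A)
        fun i => FreeCommRing.lift a (p i)).symm⟩
    | neg =>
      exact ⟨-p 0, (map_neg _ _).trans (Ring.CompatibleRing.funMap_neg (R := A)
        fun i => FreeCommRing.lift a (p i)).symm⟩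
    | zero => exact ⟨0, by rw [map_zero]; exact (Ring.CompatibleRing.funMap_zero (R := A) _).symm⟩
    | one => exact ⟨1, by rw [map_one]; exact (Ring.CompatibleRing.funMap_one (R := A) _).symm⟩

/-- A finite system of polynomial equations is expressed by a quantifier-free formula. -/
theorem exists_qf_formula {n k : ℕ} (s : Finset (FreeCommRing (Fin n ⊕ Fin k))) :
    ∃ ψ : Language.ring.Formula (Fin (n + k)), BoundedFormula.IsQF ψ ∧
      ∀ (x : Fin n → A) (y : Fin k → A), ψ.Realize (Fin.append x y) ↔
        ∀ f ∈ s, FreeCommRing.lift (Sum.elim x y) f = 0 := by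
  classical
  induction s using Finset.induction_on with
  | empty => exact ⟨⊤, BoundedFormula.IsQF.top, by simp⟩
  | insert f s hf ih =>
    obtain ⟨ψ, hψ, hr⟩ := ih
    refine ⟨(((Ring.termOfFreeCommRing f).relabel finSumFinEquiv).equal 0) ⊓ ψ,
      BoundedFormula.IsQF.inf (BoundedFormula.IsAtomic.equal _ _).isQF hψ, fun x y => ?_⟩
    rw [Formula.realize_inf, hr, Formula.realize_equal, Term.realize_relabel,
      Ring.realize_termOfFreeCommRing, Ring.realize_zero]
    have h1 : (Fin.append x y) ∘ finSumFinEquiv = Sum.elim x y := by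
      funext i
      rcases i with i | i <;> simp
    rw [h1]
    simp

/-- The key algebraic fact: in a commutative ring generated by the tuple `a`, every tuple `b`
satisfying the universal formulas satisfied by `a` generates the ring. -/
theorem generates_of_transfer {n : ℕ} {a b : Fin n → A}
    (ha : ∀ x : A, ∃ t : Language.ring.Term (Fin n), t.realize a = x)
    (h : Transfer (L := Language.ring) a b) :
    ∀ x : A, ∃ t : Language.ring.Term (Fin n), t.realize b = x := by
  classical
  have hasurj : Function.Surjective (FreeCommRing.lift a) := by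
    intro x
    obtain ⟨t, ht⟩ := ha x
    obtain ⟨p, hp⟩ := exists_freeCommRing_lift_eq a t
    exact ⟨p, hp.trans ht⟩
  have : IsNoetherianRing (FreeCommRing (Fin n)) :=
    isNoetherianRing_of_ringEquiv _ (freeCommRingEquivMvPolynomialInt (Fin n)).symm
  have : IsNoetherianRing (FreeCommRing (Fin n ⊕ Fin n)) :=
    isNoetherianRing_of_ringEquiv _ (freeCommRingEquivMvPolynomialInt (Fin n ⊕ Fin n)).symm
  have : IsNoetherianRing A := isNoetherianRing_of_surjective _ _ _ hasurj
  have hinl : ∀ (u v : Fin n → A) (p : FreeCommRing (Fin n)),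
      FreeCommRing.lift (Sum.elim u v) (FreeCommRing.map Sum.inl p) = FreeCommRing.lift u p := by
    intro u v p
    have : (FreeCommRing.lift (Sum.elim u v)).comp (FreeCommRing.map Sum.inl) =
        FreeCommRing.lift u := FreeCommRing.hom_ext (by simp)
    exact DFunLike.congr_fun this p
  have hinr : ∀ (u v : Fin n → A) (p : FreeCommRing (Fin n)),
      FreeCommRing.lift (Sum.elim u v) (FreeCommRing.map Sum.inr p) = FreeCommRing.lift v p := by
    intro u v p
    have : (FreeCommRing.lift (Sum.elim u v)).comp (FreeCommRing.map Sum.inr) =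
        FreeCommRing.lift v := FreeCommRing.hom_ext (by simp)
    exact DFunLike.congr_fun this p
  -- the relations between `b` and `a`
  have hΘ : Function.Surjective (FreeCommRing.lift (Sum.elim b a)) := by
    intro x
    obtain ⟨p, hp⟩ := hasurj x
    exact ⟨FreeCommRing.map Sum.inr p, (hinr b a p).trans hp⟩
  obtain ⟨s, hs⟩ := (isNoetherianRing_iff_ideal_fg _).1 ‹IsNoetherianRing
    (FreeCommRing (Fin n ⊕ Fin n))› (RingHom.ker (FreeCommRing.lift (Sum.elim b a)))
  obtain ⟨ψ, hψ, hr⟩ := exists_qf_formula (A := A) s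
  have hex : ∃ c : Fin n → A, ψ.Realize (Fin.append a c) := by
    by_contra hno
    push Not at hno
    have h1 := h n ψ.not hψ.not (fun y => by simpa using hno y) a
    rw [Formula.realize_not, hr] at h1
    refine h1 fun f hf => ?_
    have : f ∈ RingHom.ker (FreeCommRing.lift (Sum.elim b a)) := by
      rw [← hs]
      exact Ideal.subset_span hf
    exact this
  obtain ⟨c, hc⟩ := hex
  rw [hr] at hc
  have hker : RingHom.ker (FreeCommRing.lift (Sum.elim b a)) ≤
      RingHom.ker (FreeCommRing.lift (Sum.elim a c)) := by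
    rw [← hs]
    exact Ideal.span_le.2 fun f hf => hc f hf
  let r : A →+* A := RingHom.liftOfSurjective _ hΘ ⟨_, hker⟩
  have hr' : ∀ p, r (FreeCommRing.lift (Sum.elim b a) p) = FreeCommRing.lift (Sum.elim a c) p :=
    fun p => RingHom.liftOfRightInverse_comp_apply _ _ _ ⟨_, hker⟩ p
  have hrb : ∀ p, r (FreeCommRing.lift b p) = FreeCommRing.lift a p := by
    intro p
    rw [← hinl b a, hr', hinl]
  have hrs : Function.Surjective r := by
    intro x
    obtain ⟨p, rfl⟩ := hasurj x
    exact ⟨_, hrb p⟩
  have hri := injective_of_surjective_of_noetherian r hrs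
  intro x
  obtain ⟨p, hp⟩ := hasurj (r x)
  refine ⟨Ring.termOfFreeCommRing p, ?_⟩
  rw [Ring.realize_termOfFreeCommRing]
  exact hri ((hrb p).trans hp)

end Ring

/-- **Every finitely generated commutative ring has a d-`Sigma_2` Scott sentence.** -/
theorem result (A : Type w) [CommRing A] [Ring.CompatibleRing A]
    (hA : Structure.FG Language.ring A) :
    ∃ φ : InfFormula Language.ring 0, IsDSigma 2 φ ∧ IsScottSentence.{0, 0, w, z} φ A := by
  obtain ⟨n, a, ha⟩ := Substructure.fg_iff_exists_fin_generating_family.1 hA.out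
  let a' : Fin (0 + n) → A := fun i => a (Fin.cast (Nat.zero_add n) i)
  have hrange : Set.range a' = Set.range a := by
    ext x
    constructor
    · rintro ⟨i, rfl⟩
      exact ⟨_, rfl⟩
    · rintro ⟨i, rfl⟩
      exact ⟨Fin.cast (Nat.zero_add n).symm i, by simp [a']⟩
  have hgen : ∀ x : A, ∃ t : Language.ring.Term (Fin (0 + n)), t.realize a' = x := by
    intro x
    have hx : x ∈ closure Language.ring (Set.range a') := by
      rw [hrange, ha]
      trivial
    obtain ⟨t, ht⟩ := mem_closure_iff_exists_term.1 hx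
    choose f hf using fun y : Set.range a' => y.2
    refine ⟨t.relabel f, ?_⟩
    rw [Term.realize_relabel, ← ht]
    congr 1
    funext y
    exact hf y
  have : Countable Language.ring.Symbols := Finite.to_countable
  exact exists_scottSentence a' hgen fun b hb => generates_of_transfer hgen hb

end Pool.Agent.Results.MP_93e0ce_lc.CommRingScott
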